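import Mathlib

set_option autoImplicit false

namespace Pool.Agent.H359Z.Sidon9

/-- reduction mod 3 -/
def red : ZMod 9 →+* ZMod 3 := ZMod.castHom (by norm_num) (ZMod 3)

/-- a section of the reduction -/
def lft (z : ZMod 3) : ZMod 9 := (z.val : ZMod 9)

/-- multiplication by three, from Z/3 to Z/9 -/
def m3 (z : ZMod 3) : ZMod 9 := 3 * lft z

theorem red_lft : ∀ z : ZMod 3, red (lft z) = z := by decide

theorem three_mul_eq : ∀ a : ZMod 9, 3 * a = m3 (red a) := by decide

theorem red_m3 : ∀ z : ZMod 3, red (m3 z) = 0 := by decide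

theorem m3_add : ∀ y z : ZMod 3, m3 (y + z) = m3 y + m3 z := by decide

theorem m3_inj : ∀ y z : ZMod 3, m3 y = m3 z → y = z := by decide

theorem lft_add : ∀ y z : ZMod 3, ∃ c : ZMod 9, lft (y + z) = lft y + lft z + 3 * c := by decide

theorem nine : (9 : ZMod 9) = 0 := by decide

theorem cube_lift (K : Type) [CommRing K] [Algebra (ZMod 3) K] [Module.Finite (ZMod 3) K]
    (φ : K →ₗ[ZMod 3] ZMod 3) :
    ∃ ψ : K → ZMod 9, (∀ x, red (ψ x) = φ (x ^ 3)) ∧
      ∀ x y, ψ (x + y) = ψ x + ψ y + m3 (φ (x * y * (x + y))) := by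
  classical
  let n := Module.finrank (ZMod 3) K
  let b : Module.Basis (Fin n) (ZMod 3) K := Module.finBasis (ZMod 3) K
  let t : Fin n → Fin n → Fin n → ZMod 9 := fun i j k => lft (φ (b i * b j * b k))
  let C : (Fin n → ZMod 9) → (Fin n → ZMod 9) → (Fin n → ZMod 9) → ZMod 9 :=
    fun u v w => ∑ i, ∑ j, ∑ k, t i j k * u i * v j * w k
  let R : (Fin n → ZMod 9) → K := fun u => ∑ i, red (u i) • b i
  let L : K → (Fin n → ZMod 9) := fun x i => lft (b.repr x i)
  have hRL : ∀ x, R (L x) = x := by
    intro x
    simp only [R, L, red_lft]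
    exact b.sum_repr x
  have hC : ∀ u v w, red (C u v w) = φ (R u * R v * R w) := by
    intro u v w
    simp only [C, R, t, map_sum, map_mul, red_lft, Finset.sum_mul, Finset.mul_sum,
      smul_mul_assoc, mul_smul_comm, map_smul, smul_eq_mul]
    rw [Finset.sum_comm]
    conv_lhs => rw [Finset.sum_congr rfl (fun j _ => Finset.sum_comm)]
    rw [Finset.sum_comm]
    refine Finset.sum_congr rfl fun k _ => Finset.sum_congr rfl fun j _ =>
      Finset.sum_congr rfl fun i _ => ?_
    ring
  have s12 : ∀ u v w, C u v w = C v u w := by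
    intro u v w
    simp only [C]
    rw [Finset.sum_comm]
    refine Finset.sum_congr rfl fun j _ => Finset.sum_congr rfl fun i _ =>
      Finset.sum_congr rfl fun k _ => ?_
    simp only [t]
    rw [mul_comm (b i) (b j)]
    ring
  have s23 : ∀ u v w, C u v w = C u w v := by
    intro u v w
    simp only [C]
    refine Finset.sum_congr rfl fun i _ => ?_
    rw [Finset.sum_comm]
    refine Finset.sum_congr rfl fun k _ => Finset.sum_congr rfl fun j _ => ?_
    simp only [t]
    rw [mul_right_comm (b i) (b j) (b k)]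
    ring
  have a3 : ∀ u v w w', C u v (w + w') = C u v w + C u v w' := by
    intro u v w w'
    simp only [C, Pi.add_apply, mul_add, Finset.sum_add_distrib]
  have a2 : ∀ u v v' w, C u (v + v') w = C u v w + C u v' w := by
    intro u v v' w
    rw [s23, a3, s23 u w v, s23 u w v']
  have a1 : ∀ u u' v w, C (u + u') v w = C u v w + C u' v w := by
    intro u u' v w
    rw [s12, a2, s12 v u w, s12 v u' w]
  have cube : ∀ u v, C (u + v) (u + v) (u + v) =
      C u u u + C v v v + 3 * (C u u v + C u v v) := by
    intro u v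
    simp only [a1, a2, a3]
    rw [s23 u v u, s12 v u u, s23 u v u, s12 v u v, s23 v v u, s12 v u v]
    ring
  have h3 : ∀ u v (c : Fin n → ZMod 9), C u v (fun i => 3 * c i) = 3 * C u v c := by
    intro u v c
    have : (fun i => 3 * c i) = c + c + c := by funext i; simp only [Pi.add_apply]; ring
    rw [this, a3, a3]; ring
  have inv : ∀ w c : Fin n → ZMod 9,
      C (w + fun i => 3 * c i) (w + fun i => 3 * c i) (w + fun i => 3 * c i) = C w w w := by
    intro w c
    rw [cube, h3, h3, h3, s23 _ _ c, h3]
    linear_combination (C (fun i => 3 * c i) c c + C w w c + C w (fun i => 3 * c i) c) * nine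
  refine ⟨fun x => C (L x) (L x) (L x), fun x => ?_, fun x y => ?_⟩
  · rw [hC, hRL]; congr 1; ring
  · choose c hc using fun i => lft_add (b.repr x i) (b.repr y i)
    have : L (x + y) = (L x + L y) + fun i => 3 * c i := by
      funext i
      simp only [L, map_add, Finsupp.add_apply, Pi.add_apply, hc]
    simp only
    rw [this, inv, cube, three_mul_eq, map_add, hC, hC, hRL, hRL, ← map_add]
    congr 3
    ring

end Pool.Agent.H359Z.Sidon9
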